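import Pool.Agent.R344.SP.MB

/-! Rises along trajectories, part A: deterministic lemmas. -/

set_option autoImplicit false

namespace Pool.Agent.R344.EX

open Finset
open Pool.Agent.H499R2.CO (Tz)
open Pool.Agent.R344.SP

/-- a maximal inequality (rising sun) -/
theorem rising (D : ℕ → ℕ) (W c : ℕ) (P : ℕ → Prop) [DecidablePred P]
    (h : ∀ k, P k → k < W → ∃ j, 1 ≤ j ∧ k + j ≤ W ∧ j ≤ c * ∑ i ∈ Ico k (k + j), D i) :
    ∀ r s, W - s = r → s ≤ W → ((Ico s W).filter P).card ≤ c * ∑ i ∈ Ico s W, D i := by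
  intro r
  induction r using Nat.strong_induction_on with
  | _ r ih =>
    intro s hr hs
    rcases Nat.lt_or_ge s W with hlt | hge
    · by_cases hP : P s
      · obtain ⟨j, hj1, hj2, hj3⟩ := h s hP hlt
        have h1 := ih (W - (s + j)) (by omega) (s + j) rfl hj2
        have h2 : Ico s W = Ico s (s + j) ∪ Ico (s + j) W := (Ico_union_Ico_eq_Ico (by omega) hj2).symm
        have h3 : Disjoint (Ico s (s + j)) (Ico (s + j) W) := Ico_disjoint_Ico_consecutive _ _ _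
        rw [h2, sum_union h3, filter_union, mul_add]
        refine (card_union_le _ _).trans (add_le_add ?_ h1)
        refine (card_filter_le _ _).trans ?_
        rw [Nat.card_Ico]
        omega
      · have h1 := ih (W - (s + 1)) (by omega) (s + 1) rfl (by omega)
        rw [sum_eq_sum_Ico_succ_bot hlt, ← insert_Ico_add_one_left_eq_Ico hlt, filter_insert, if_neg hP, mul_add]
        omega
    · have : Ico s W = ∅ := Ico_eq_empty (by omega)
      rw [this]; simp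

theorem shift_window (X : ℕ → ℕ) (hX : ∀ i, X i ≤ 1) (k j u : ℕ) :
    ∑ i ∈ Ico k (k + j), X i ≤ ∑ i ∈ Ico k (k + j), X (i + u) + u := by
  have h1 : ∑ i ∈ Ico k (k + j), X (i + u) = ∑ i ∈ Ico (k + u) (k + j + u), X i := by
    rw [← sum_Ico_add' X k (k + j) u]
  rw [h1]
  have h2 : ∑ i ∈ Ico k (k + j), X i ≤ ∑ i ∈ Ico k (k + j + u), X i :=
    sum_le_sum_of_subset (Ico_subset_Ico_right (by omega))
  have h3 : ∑ i ∈ Ico k (k + j + u), X i = ∑ i ∈ Ico k (k + u), X i + ∑ i ∈ Ico (k + u) (k + j + u), X i :=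
    (sum_Ico_consecutive X (by omega) (by omega)).symm
  have h4 : ∑ i ∈ Ico k (k + u), X i ≤ u := by
    calc ∑ i ∈ Ico k (k + u), X i ≤ ∑ _i ∈ Ico k (k + u), 1 := sum_le_sum fun i _ => hX i
      _ = u := by simp
  omega

/-- many odd terms in a long window force many bad short windows -/
theorem block (X : ℕ → ℕ) (hX : ∀ i, X i ≤ 1) (h : ℕ) (hh : 1 ≤ h) (k j : ℕ) (hj : 200 * h ≤ j)
    (hs : 3 * j ≤ 5 * ∑ i ∈ Ico k (k + j), X i) :
    j ≤ 10 * ∑ i ∈ Ico k (k + j), (if 11 * h ≤ 20 * ∑ u ∈ range h, X (i + u) then 1 else 0) := by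
  set S := ∑ i ∈ Ico k (k + j), X i with hS
  set D : ℕ → ℕ := fun i => if 11 * h ≤ 20 * ∑ u ∈ range h, X (i + u) then 1 else 0 with hD
  have h1 : h * S ≤ ∑ i ∈ Ico k (k + j), ∑ u ∈ range h, X (i + u) + h * h := by
    rw [sum_comm]
    calc h * S = ∑ _u ∈ range h, S := by rw [sum_const, card_range, smul_eq_mul]
      _ ≤ ∑ u ∈ range h, (∑ i ∈ Ico k (k + j), X (i + u) + h) := by
          apply sum_le_sum
          intro u hu
          rw [mem_range] at hu
          have := shift_window X hX k j u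
          omega
      _ = _ := by rw [sum_add_distrib, sum_const, card_range, smul_eq_mul]
  have h2 : 20 * ∑ i ∈ Ico k (k + j), ∑ u ∈ range h, X (i + u) ≤ 11 * h * j + 9 * h * ∑ i ∈ Ico k (k + j), D i := by
    have e1 : ∀ i ∈ Ico k (k + j), 20 * ∑ u ∈ range h, X (i + u) ≤ 11 * h + 9 * h * D i := by
      intro i _
      have e2 : ∑ u ∈ range h, X (i + u) ≤ h := by
        calc ∑ u ∈ range h, X (i + u) ≤ ∑ _u ∈ range h, 1 := sum_le_sum fun u _ => hX _
          _ = h := by simp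
      rw [hD]; dsimp only
      split_ifs with h3 <;> omega
    rw [mul_sum]
    refine (sum_le_sum e1).trans ?_
    have e3 : ∑ i ∈ Ico k (k + j), 9 * h * D i = 9 * h * ∑ i ∈ Ico k (k + j), D i := by rw [mul_sum]
    rw [sum_add_distrib, e3, sum_const, Nat.card_Ico, smul_eq_mul]
    have : k + j - k = j := by omega
    rw [this, mul_comm j]
  change j ≤ 10 * ∑ i ∈ Ico k (k + j), D i
  set E := ∑ i ∈ Ico k (k + j), D i
  have h3 : h * (20 * S) ≤ h * (11 * j + 9 * E + 20 * h) := by nlinarith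
  have h4 := Nat.le_of_mul_le_mul_left h3 (by omega)
  omega

/-- the parity of the `i`th term -/
def X (n : ℤ) (i : ℕ) : ℕ := (((Tz 1)^[i] n) % 2).toNat

theorem X_le (n : ℤ) (i : ℕ) : X n i ≤ 1 := by
  unfold X; omega

theorem od_Ico (n : ℤ) (k j : ℕ) : od 1 j ((Tz 1)^[k] n) = ∑ i ∈ Ico k (k + j), X n i := by
  unfold od X
  rw [sum_Ico_eq_sum_range]
  have : k + j - k = j := by omega
  rw [this]
  apply sum_congr rfl
  intro i _
  rw [← Function.iterate_add_apply, add_comm k i]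

theorem od_range (n : ℤ) (i h : ℕ) : od 1 h ((Tz 1)^[i] n) = ∑ u ∈ range h, X n (i + u) := by
  unfold od X
  apply sum_congr rfl
  intro u _
  rw [← Function.iterate_add_apply, add_comm i u]

theorem Tz_even {x : ℤ} (h : x % 2 = 0) : 2 * Tz 1 x = x := by
  unfold Tz; rw [if_pos h]; omega

theorem Tz_odd {x : ℤ} (h : x % 2 = 1) : 2 * Tz 1 x = 3 * x + 1 := by
  unfold Tz; rw [if_neg (by omega)]; omega

/-- exact form of the `j`th term -/
theorem iter_form' (x : ℤ) : ∀ j : ℕ, ∃ c : ℤ, 0 ≤ c ∧ (1 ≤ od 1 j x → 0 < c) ∧ c + 2 ^ j ≤ 3 ^ j ∧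
    2 ^ j * (Tz 1)^[j] x = 3 ^ od 1 j x * x + c
  | 0 => ⟨0, le_rfl, by simp [od], by norm_num, by simp [od]⟩
  | j + 1 => by
    obtain ⟨c, h1, h0, h2, h3⟩ := iter_form' x j
    rw [Function.iterate_succ_apply', od_succ]
    set y := (Tz 1)^[j] x
    have h4 : (2 : ℤ) ^ j ≤ 3 ^ j := pow_le_pow_left₀ (by norm_num) (by norm_num) j
    rcases Int.emod_two_eq_zero_or_one y with h | h
    · refine ⟨c, h1, ?_, by rw [pow_succ, pow_succ]; nlinarith [pow_pos (by norm_num : (0 : ℤ) < 2) j], ?_⟩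
      · rw [h, Int.toNat_zero, add_zero]; exact h0
      · rw [h, Int.toNat_zero, add_zero, pow_succ, mul_assoc, Tz_even h, h3]
    · refine ⟨3 * c + 2 ^ j, by positivity, fun _ => by positivity, by rw [pow_succ, pow_succ]; linarith, ?_⟩
      rw [h, Int.toNat_one, pow_succ, mul_assoc, Tz_odd h, pow_succ]
      linear_combination 3 * h3

theorem iter_form (x : ℤ) (j : ℕ) : ∃ c : ℤ, 0 ≤ c ∧ c + 2 ^ j ≤ 3 ^ j ∧
    2 ^ j * (Tz 1)^[j] x = 3 ^ od 1 j x * x + c := by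
  obtain ⟨c, h1, _, h2, h3⟩ := iter_form' x j
  exact ⟨c, h1, h2, h3⟩

/-- growth when all terms are at least ten -/
theorem growth (x : ℤ) : ∀ j : ℕ, (∀ i < j, 10 ≤ (Tz 1)^[i] x) →
    (2 : ℝ) ^ j * ((Tz 1)^[j] x : ℤ) ≤ (31 / 10) ^ od 1 j x * x
  | 0, _ => by simp [od]
  | j + 1, h => by
    have ih := growth x j (fun i hi => h i (by omega))
    have h10 := h j (by omega)
    rw [Function.iterate_succ_apply', od_succ]
    set y := (Tz 1)^[j] x
    have hy : (10 : ℝ) ≤ y := by exact_mod_cast h10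
    have h2 : (0 : ℝ) < 2 ^ j := by positivity
    rcases Int.emod_two_eq_zero_or_one y with h | h
    · rw [h, Int.toNat_zero, add_zero, pow_succ, mul_assoc]
      have : (2 : ℝ) * (Tz 1 y : ℤ) = y := by exact_mod_cast Tz_even h
      rw [this]; exact ih
    · rw [h, Int.toNat_one, pow_succ, mul_assoc]
      have : (2 : ℝ) * (Tz 1 y : ℤ) = 3 * y + 1 := by exact_mod_cast Tz_odd h
      rw [this]
      calc (2 : ℝ) ^ j * (3 * y + 1) ≤ 2 ^ j * (31 / 10 * y) := by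
            apply mul_le_mul_of_nonneg_left _ h2.le; linarith
        _ = 31 / 10 * (2 ^ j * y) := by ring
        _ ≤ 31 / 10 * ((31 / 10) ^ od 1 j x * x) := by
            apply mul_le_mul_of_nonneg_left ih (by norm_num)
        _ = _ := by rw [pow_succ]; ring

/-- a rise needs three fifths of odd terms -/
theorem rise_odd {x : ℤ} {j : ℕ} (hj : 1 ≤ j) (h : ∀ i < j, 10 ≤ (Tz 1)^[i] x) (hr : x ≤ (Tz 1)^[j] x) :
    3 * j ≤ 5 * od 1 j x := by
  have h1 := growth x j h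
  have h0 : (10 : ℝ) ≤ x := by
    have := h 0 (by omega)
    rw [Function.iterate_zero, id] at this
    exact_mod_cast this
  have h2 : (x : ℝ) ≤ ((Tz 1)^[j] x : ℤ) := by exact_mod_cast hr
  have h3 : (2 : ℝ) ^ j ≤ (31 / 10) ^ od 1 j x := by
    have h4 : (2 : ℝ) ^ j * x ≤ (31 / 10) ^ od 1 j x * x :=
      le_trans (mul_le_mul_of_nonneg_left h2 (by positivity)) h1
    exact le_of_mul_le_mul_right h4 (by linarith)
  by_contra hc
  push Not at hc
  have h5 : (2 : ℝ) ^ (5 * j) ≤ (31 / 10) ^ (5 * od 1 j x) := by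
    rw [mul_comm 5 j, mul_comm 5 (od 1 j x), pow_mul, pow_mul]
    exact pow_le_pow_left₀ (by positivity) h3 5
  have h6 : ((31 : ℝ) / 10) ^ (5 * od 1 j x) ≤ (31 / 10) ^ (3 * j) :=
    pow_le_pow_right₀ (by norm_num) (by omega)
  have h7 : ((31 : ℝ) / 10) ^ (3 * j) < 2 ^ (5 * j) := by
    rw [pow_mul, pow_mul]
    exact pow_lt_pow_left₀ (by norm_num) (by positivity) (by omega)
  linarith

/-- the gap -/
theorem gap (lam : ℝ) (J : ℕ) : ∃ g : ℝ, 0 < g ∧ ∀ j ≤ J, ∀ o ≤ J, (3 : ℝ) ^ o < lam * 2 ^ j →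
    (3 : ℝ) ^ o + g ≤ lam * 2 ^ j := by
  have h : ∀ᶠ g : ℝ in nhdsWithin 0 (Set.Ioi 0), ∀ j ∈ range (J + 1), ∀ o ∈ range (J + 1),
      (3 : ℝ) ^ o < lam * 2 ^ j → (3 : ℝ) ^ o + g ≤ lam * 2 ^ j := by
    rw [Filter.eventually_all_finset]
    intro j _
    rw [Filter.eventually_all_finset]
    intro o _
    by_cases hlt : (3 : ℝ) ^ o < lam * 2 ^ j
    · have h1 : ∀ᶠ g : ℝ in nhdsWithin 0 (Set.Ioi 0), g < lam * 2 ^ j - 3 ^ o :=
        nhdsWithin_le_nhds (gt_mem_nhds (by linarith))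
      filter_upwards [h1] with g hg _
      linarith
    · exact Filter.Eventually.of_forall fun g hg => absurd hg hlt
  obtain ⟨g, hg, h0⟩ := (h.and self_mem_nhdsWithin).exists
  exact ⟨g, h0, fun j hj o ho => hg j (mem_range.2 (by omega)) o (mem_range.2 (by omega))⟩

/-- the terms follow the slopes: a slope of at least `lam` gives a rise by more than the factor `lam` -/
theorem slope_rise {lam : ℝ} (hlam : 1 ≤ lam) {x : ℤ} (hx : 0 ≤ x) {j : ℕ} (hj : 1 ≤ j)
    (h : lam * 2 ^ j ≤ 3 ^ od 1 j x) : lam * x < ((Tz 1)^[j] x : ℤ) := by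
  obtain ⟨c, _, h1, _, h3⟩ := iter_form' x j
  have h0 : 1 ≤ od 1 j x := by
    by_contra hc
    have h2 : od 1 j x = 0 := by omega
    rw [h2, pow_zero] at h
    have h4 : (2 : ℝ) ≤ 2 ^ j := by
      calc (2 : ℝ) = 2 ^ 1 := (pow_one _).symm
        _ ≤ 2 ^ j := pow_le_pow_right₀ (by norm_num) hj
    nlinarith
  have h4 : (2 : ℝ) ^ j * ((Tz 1)^[j] x : ℤ) = 3 ^ od 1 j x * x + c := by exact_mod_cast h3
  have hc : (0 : ℝ) < c := by exact_mod_cast h1 h0
  have hx' : (0 : ℝ) ≤ x := by exact_mod_cast hx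
  have h5 : (2 : ℝ) ^ j * (lam * x) < 2 ^ j * ((Tz 1)^[j] x : ℤ) := by
    rw [h4]
    have := mul_le_mul_of_nonneg_right h hx'
    linarith
  exact lt_of_mul_lt_mul_left h5 (by positivity)

/-- for large terms a rise in a few steps comes from a slope -/
theorem rise_slope {lam g : ℝ} {J : ℕ} (hg : ∀ j ≤ J, ∀ o ≤ J, (3 : ℝ) ^ o < lam * 2 ^ j →
    (3 : ℝ) ^ o + g ≤ lam * 2 ^ j) {x : ℤ} (hx0 : 0 ≤ x) (hx : (3 : ℝ) ^ J < g * x) {j : ℕ} (hj : j ≤ J)
    (h : lam * x ≤ ((Tz 1)^[j] x : ℤ)) : lam * 2 ^ j ≤ 3 ^ od 1 j x := by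
  by_contra hc
  push Not at hc
  have h1 := hg j hj (od 1 j x) ((od_le 1 j x).trans hj) hc
  obtain ⟨c, _, h2, h3⟩ := iter_form x j
  have h4 : (2 : ℝ) ^ j * ((Tz 1)^[j] x : ℤ) = 3 ^ od 1 j x * x + c := by exact_mod_cast h3
  have h5 : (c : ℝ) + 2 ^ j ≤ 3 ^ j := by exact_mod_cast h2
  have h6 : (3 : ℝ) ^ j ≤ 3 ^ J := pow_le_pow_right₀ (by norm_num) hj
  have h7 : (0 : ℝ) < 2 ^ j := by positivity
  have hx' : (0 : ℝ) ≤ x := by exact_mod_cast hx0
  have h8 : (2 : ℝ) ^ j * (lam * x) ≤ 2 ^ j * ((Tz 1)^[j] x : ℤ) := mul_le_mul_of_nonneg_left h h7.le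
  rw [h4] at h8
  have h9 := mul_le_mul_of_nonneg_right h1 hx'
  nlinarith

end Pool.Agent.R344.EX
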