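import Pool.Agent.R344.EX.A

/-! Rises along trajectories, part B: the law for almost all trajectories. -/

set_option autoImplicit false

namespace Pool.Agent.R344.EX

open Finset Filter
open Pool.Agent.H499R2.CO (Tz)
open Pool.Agent.R344.SP

theorem T1 : ∀ x : ℤ, Tz 1 x = if x % 2 = 0 then x / 2 else (3 * x + 1) / 2 := fun _ => rfl

open Classical in
/-- a slope of at least `lam` within `J` steps -/
noncomputable def Fs (lam : ℝ) (J : ℕ) (y : ℤ) : ℝ :=
  if ∃ j, 1 ≤ j ∧ j ≤ J ∧ lam * 2 ^ j ≤ (3 : ℝ) ^ od 1 j y then 1 else 0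

/-- a bad window -/
noncomputable def Bw (h : ℕ) (y : ℤ) : ℝ := if 11 * h ≤ 20 * od 1 h y then 1 else 0

theorem od_shift' {j J : ℕ} (h : j ≤ J) (x z : ℤ) : od 1 j (x + (2 ^ J : ℕ) * z) = od 1 j x := by
  obtain ⟨e, rfl⟩ := Nat.exists_eq_add_of_le h
  have : x + ((2 ^ (j + e) : ℕ) : ℤ) * z = x + 2 ^ j * (2 ^ e * z) := by push_cast; ring
  rw [this, od_shift]

theorem Fs_per (lam : ℝ) (J : ℕ) (x z : ℤ) : Fs lam J (x + (2 ^ J : ℕ) * z) = Fs lam J x := by
  classical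
  unfold Fs
  have : (∃ j, 1 ≤ j ∧ j ≤ J ∧ lam * 2 ^ j ≤ (3 : ℝ) ^ od 1 j (x + (2 ^ J : ℕ) * z)) ↔
      (∃ j, 1 ≤ j ∧ j ≤ J ∧ lam * 2 ^ j ≤ (3 : ℝ) ^ od 1 j x) := by
    constructor
    · rintro ⟨j, h1, h2, h3⟩; rw [od_shift' h2] at h3; exact ⟨j, h1, h2, h3⟩
    · rintro ⟨j, h1, h2, h3⟩; rw [← od_shift' h2 x z] at h3; exact ⟨j, h1, h2, h3⟩
  simp only [this]

theorem Bw_per (h : ℕ) (x z : ℤ) : Bw h (x + (2 ^ h : ℕ) * z) = Bw h x := by
  unfold Bw; rw [od_shift' le_rfl]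

theorem Fs_abs (lam : ℝ) (J : ℕ) (x : ℤ) : |Fs lam J x| ≤ 1 := by
  unfold Fs; split_ifs <;> simp

theorem Bw_abs (h : ℕ) (x : ℤ) : |Bw h x| ≤ 1 := by
  unfold Bw; split_ifs <;> simp

theorem Bw_mean {η : ℝ} (hη : 0 < η) (h₀ : ℕ) : ∃ h : ℕ, 1 ≤ h ∧ h₀ ≤ h ∧ mn (Bw h) (2 ^ h) < η := by
  set r : ℝ := (11 / 10) ^ 20 / (6 / 5) ^ 11 with hr
  have hr0 : 0 ≤ r := by positivity
  have hr1 : r < 1 := by rw [hr]; norm_num
  have ht := (tendsto_pow_atTop_nhds_zero_of_lt_one hr0 hr1).eventually (gt_mem_nhds hη)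
  obtain ⟨m, hm1, hm⟩ := ((eventually_ge_atTop (max 1 h₀)).and ht).exists
  have hm2 := le_max_left 1 h₀
  have hm3 := le_max_right 1 h₀
  refine ⟨20 * m, by omega, by omega, lt_of_le_of_lt ?_ hm⟩
  have h1 := od_gen (d := 1) (by norm_num) (6 / 5) (20 * m)
  unfold mn
  rw [div_le_iff₀ (by positivity)]
  calc ∑ i ∈ range (2 ^ (20 * m)), Bw (20 * m) (i : ℤ)
      ≤ ∑ i ∈ range (2 ^ (20 * m)), (6 / 5 : ℝ) ^ od 1 (20 * m) (i : ℤ) / (6 / 5) ^ (11 * m) := by
        apply sum_le_sum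
        intro i _
        unfold Bw
        split_ifs with h
        · rw [le_div_iff₀ (by positivity), one_mul]
          exact pow_le_pow_right₀ (by norm_num) (by omega)
        · positivity
    _ = (1 + 6 / 5) ^ (20 * m) / (6 / 5) ^ (11 * m) := by rw [← sum_div, h1]
    _ = r ^ m * ((2 ^ (20 * m) : ℕ) : ℝ) := by
        rw [hr]
        push_cast
        have e1 : (1 + 6 / 5 : ℝ) ^ (20 * m) = ((11 / 10) ^ 20) ^ m * 2 ^ (20 * m) := by
          rw [← pow_mul, ← mul_pow]; norm_num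
        rw [e1, div_pow ((11 / 10 : ℝ) ^ 20) ((6 / 5) ^ 11) m, ← pow_mul (6 / 5 : ℝ) 11 m]
        ring

theorem log43 : 0 < Real.log (4 / 3) := Real.log_pos (by norm_num)

theorem log3_lt : Real.log 3 < 2 := by
  rw [Real.log_lt_iff_lt_exp (by norm_num)]
  have h := Real.exp_one_gt_d9
  have h2 : Real.exp 2 = Real.exp 1 * Real.exp 1 := by rw [← Real.exp_add]; norm_num
  rw [h2]; nlinarith

/-- almost all trajectories stay large up to time `κ log n` -/
theorem large_terms {κ : ℝ} (hκ : κ < 2 / Real.log (4 / 3)) (R : ℝ) {c : ℝ} (hc : 0 < c) :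
    Few c (fun (_ : Unit) n => 0 < n ∧ ∃ i : ℕ, (i : ℝ) ≤ κ * Real.log |(n : ℝ)| ∧
      ((Tz 1)^[i] n : ℤ) < R) := by
  set F : ℤ → ℝ := fun x => ((x % 2).toNat : ℝ) with hF
  have hF1 : ∀ x, |F x| ≤ 1 := by
    intro x
    rw [hF]; dsimp only
    rcases Int.emod_two_eq_zero_or_one x with h | h <;> rw [h] <;> simp
  have hFp : ∀ x z : ℤ, F (x + (2 : ℕ) * z) = F x := by
    intro x z
    rw [hF]; dsimp only
    have : (x + ((2 : ℕ) : ℤ) * z) % 2 = x % 2 := by push_cast; omega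
    rw [this]
  have hm : mn F 2 = 1 / 2 := by
    unfold mn
    rw [sum_range_succ, sum_range_one, hF]
    norm_num
  set δ : ℝ := 1 - κ * (Real.log (4 / 3) / 2) with hδ
  have hδ0 : 0 < δ := by
    rw [hδ]
    rw [lt_div_iff₀ log43] at hκ
    linarith
  have hL3 : 0 < Real.log 3 := Real.log_pos (by norm_num)
  set c1 : ℝ := min (δ / 4) (c / 2) with hc1
  have hc10 : 0 < c1 := lt_min (by positivity) (by positivity)
  have hlaw := law_prime T1 hκ hF1 (H := 2) (by norm_num) (by norm_num) hFp hc10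
  rw [hm] at hlaw
  have hS := few_small (α := Unit) (2 * Real.log (max R 1) / δ) (c := c / 2) (by positivity)
  refine (hlaw.union hS (B'' := fun (_ : Unit) n => 0 < n ∧ ∃ i : ℕ, (i : ℝ) ≤ κ * Real.log |(n : ℝ)| ∧
      ((Tz 1)^[i] n : ℤ) < R) (fun _ => ⟨fun _ => 1, fun _ => by simp⟩) id ?_).mono
      (by linarith [min_le_right (δ / 4) (c / 2)]) id (fun _ _ _ hb => hb)
  rintro _ n _ ⟨hn, i, hi, hlt⟩
  by_contra hcon
  rw [not_or] at hcon
  obtain ⟨h1, h2⟩ := hcon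
  push Not at h1 h2
  have h3 := h1 i hi
  simp only [one_mul] at h3
  set ℓ := Real.log |(n : ℝ)| with hℓ
  have hℓ0 : 0 < ℓ := by
    have : 0 ≤ 2 * Real.log (max R 1) / δ := by
      have : 0 ≤ Real.log (max R 1) := Real.log_nonneg (le_max_right _ _)
      positivity
    linarith
  have hn' : (0 : ℝ) < n := by exact_mod_cast hn
  have hod : ∑ k ∈ range i, (F ((Tz 1)^[k] n) - 1 / 2) = (od 1 i n : ℝ) - i / 2 := by
    rw [sum_sub_distrib, sum_const, card_range, nsmul_eq_mul]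
    unfold od
    push_cast
    ring
  rw [hod, abs_le] at h3
  obtain ⟨c0, g1, _, g3⟩ := iter_form n i
  have g4 : (2 : ℝ) ^ i * ((Tz 1)^[i] n : ℤ) = 3 ^ od 1 i n * n + c0 := by exact_mod_cast g3
  have g5 : (3 : ℝ) ^ od 1 i n * n ≤ 2 ^ i * ((Tz 1)^[i] n : ℤ) := by
    rw [g4]
    have : (0 : ℝ) ≤ c0 := by exact_mod_cast g1
    linarith
  have g6 : (0 : ℝ) < 3 ^ od 1 i n * n := by positivity
  have hT0 : (0 : ℝ) < ((Tz 1)^[i] n : ℤ) := by
    by_contra hh
    push Not at hh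
    have : (2 : ℝ) ^ i * ((Tz 1)^[i] n : ℤ) ≤ 0 := mul_nonpos_of_nonneg_of_nonpos (by positivity) hh
    linarith
  have g7 := Real.log_le_log g6 g5
  rw [Real.log_mul (by positivity) hn'.ne', Real.log_mul (by positivity) hT0.ne', Real.log_pow, Real.log_pow] at g7
  have hln : Real.log (n : ℝ) = ℓ := by rw [hℓ, abs_of_pos hn']
  rw [hln] at g7
  have hR : Real.log ((Tz 1)^[i] n : ℤ) ≤ Real.log (max R 1) :=
    Real.log_le_log hT0 (hlt.le.trans (le_max_left _ _))
  rw [div_lt_iff₀ hδ0] at h2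
  have e43 : Real.log (4 / 3) = 2 * Real.log 2 - Real.log 3 := by
    rw [Real.log_div (by norm_num) (by norm_num)]
    have : (4 : ℝ) = 2 ^ 2 := by norm_num
    rw [this, Real.log_pow]; push_cast; ring
  have k1 : (i / 2 - c1 * ℓ) * Real.log 3 ≤ od 1 i n * Real.log 3 :=
    mul_le_mul_of_nonneg_right (by linarith [h3.1]) hL3.le
  have k2 : (i : ℝ) * (Real.log (4 / 3) / 2) ≤ κ * ℓ * (Real.log (4 / 3) / 2) :=
    mul_le_mul_of_nonneg_right hi (by linarith [log43])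
  have k3 : c1 * ℓ * Real.log 3 ≤ δ / 4 * ℓ * 2 := by
    apply mul_le_mul _ log3_lt.le hL3.le (by positivity)
    exact mul_le_mul_of_nonneg_right (min_le_left _ _) hℓ0.le
  have k4 : δ * ℓ = ℓ - κ * ℓ * (Real.log (4 / 3) / 2) := by rw [hδ]; ring
  rw [e43] at k2 k4
  nlinarith

/-- a rise by more than the factor `lam` after time `k`, not after the time `W` -/
def Ris (lam W : ℝ) (n : ℤ) (k : ℕ) : Prop :=
  ∃ m : ℕ, k < m ∧ (m : ℝ) ≤ W ∧ lam * ((Tz 1)^[k] n : ℤ) < ((Tz 1)^[m] n : ℤ)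

open Classical in
theorem main_law {κ : ℝ} (hκ : κ < 2 / Real.log (4 / 3)) {lam : ℝ} (hlam : 1 ≤ lam) {p : ℝ}
    (hp : Tendsto (fun J : ℕ => mn (Fs lam J) (2 ^ J)) atTop (nhds p)) {ε : ℝ} (hε : 0 < ε) :
    Few ε (fun (w : Wt) n => 0 < n ∧ ∃ t : ℕ, (t : ℝ) ≤ κ * Real.log |(n : ℝ)| ∧
      ε * Real.log |(n : ℝ)| <
        |∑ k ∈ range t, w.1 k * ((if Ris lam (κ * Real.log |(n : ℝ)|) n k then 1 else 0) - p)|) := by
  obtain ⟨h, hh1, _, hh⟩ := Bw_mean (η := ε / 640) (by positivity) 0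
  obtain ⟨J, hJ1, hJ⟩ : ∃ J : ℕ, 200 * h ≤ J ∧ |mn (Fs lam J) (2 ^ J) - p| < ε / 64 := by
    have h1 := hp.eventually (Metric.ball_mem_nhds p (by positivity : 0 < ε / 64))
    obtain ⟨J, h2, h3⟩ := ((eventually_ge_atTop (200 * h)).and h1).exists
    refine ⟨J, h2, ?_⟩
    rwa [← Real.dist_eq]
  obtain ⟨g, hg0, hg⟩ := gap lam J
  set R : ℝ := max 10 (3 ^ J / g + 1) with hR
  have E1 := large_terms hκ R (c := ε / 8) (by positivity)
  have cop : ∀ j : ℕ, Nat.Coprime 3 (2 ^ j) := fun j => Nat.Coprime.pow_right _ (by norm_num)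
  have E2 := law_prime T1 hκ (Fs_abs lam J) (H := 2 ^ J) Nat.one_le_two_pow (cop J) (Fs_per lam J)
    (c := ε / 8) (by positivity)
  have E3 := law_prime T1 hκ (Bw_abs h) (H := 2 ^ h) Nat.one_le_two_pow (cop h) (Bw_per h)
    (c := ε / 80) (by positivity)
  have E4 := few_small (α := Unit) (8 * J / ε) (c := ε / 8) (by positivity)
  set P1 : Wt → ℤ → Prop := fun w n => ∃ t : ℕ, (t : ℝ) ≤ κ * Real.log |(n : ℝ)| ∧
    ε / 8 * Real.log |(n : ℝ)| < |∑ k ∈ range t, w.1 k * (Fs lam J ((Tz 1)^[k] n) - mn (Fs lam J) (2 ^ J))| with hP1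
  set P2 : ℤ → Prop := fun n => ∃ t : ℕ, (t : ℝ) ≤ κ * Real.log |(n : ℝ)| ∧
    ε / 80 * Real.log |(n : ℝ)| < |∑ k ∈ range t, 1 * (Bw h ((Tz 1)^[k] n) - mn (Bw h) (2 ^ h))| with hP2
  set P3 : ℤ → Prop := fun n => 0 < n ∧ ∃ i : ℕ, (i : ℝ) ≤ κ * Real.log |(n : ℝ)| ∧
      ((Tz 1)^[i] n : ℤ) < R with hP3
  set P4 : ℤ → Prop := fun n => Real.log |(n : ℝ)| ≤ 8 * J / ε with hP4
  have U1 := E2.union E3 (B'' := fun (w : Wt) n => P1 w n ∨ P2 n) id
    (fun _ => ⟨fun _ => 1, fun _ => by simp⟩) (fun w n _ hb => hb)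
  have U2 := E1.union E4 (B'' := fun (_ : Unit) n => P3 n ∨ P4 n) id id (fun w n _ hb => hb)
  have U3 := U1.union U2 (B'' := fun (w : Wt) n => (P1 w n ∨ P2 n) ∨ (P3 n ∨ P4 n)) id
    (fun _ => ()) (fun w n _ hb => hb)
  refine U3.mono (by linarith) id ?_
  rintro w n _ ⟨hn, t, ht, hb⟩
  by_contra hcon
  simp only [id, not_or] at hcon
  obtain ⟨⟨n1, n2⟩, n3, n4⟩ := hcon
  simp only [hP1, hP2, hP3, hP4] at n1 n2 n3 n4
  push Not at n1 n2 n3 n4
  set ℓ := Real.log |(n : ℝ)| with hℓ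
  have hℓ0 : 0 < ℓ := lt_of_le_of_lt (by positivity) n4
  have hJℓ : (J : ℝ) ≤ ε / 8 * ℓ := by
    rw [div_lt_iff₀ hε] at n4; linarith
  have hκℓ : 0 ≤ κ * ℓ := le_trans (by positivity) ht
  set W := ⌊κ * ℓ⌋₊ with hW
  have hWle : (W : ℝ) ≤ κ * ℓ := Nat.floor_le hκℓ
  have hle : ∀ m : ℕ, (m : ℝ) ≤ κ * ℓ ↔ m ≤ W := fun m => (Nat.le_floor_iff hκℓ).symm
  have hW8 : (W : ℝ) ≤ 8 * ℓ := hWle.trans (mul_le_mul_of_nonneg_right (kappa8 hκ) hℓ0.le)
  have htW : t ≤ W := (hle t).1 ht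
  have hbig : ∀ i ≤ W, R ≤ ((Tz 1)^[i] n : ℤ) := fun i hi => n3 hn i ((hle i).2 hi)
  have hbig10 : ∀ i ≤ W, 10 ≤ (Tz 1)^[i] n := by
    intro i hi
    have h1 : (10 : ℝ) ≤ ((Tz 1)^[i] n : ℤ) := (le_max_left _ _).trans (hbig i hi)
    exact_mod_cast h1
  -- the exceptional times
  set P : ℕ → Prop := fun k => ∃ j, J < j ∧ k + j ≤ W ∧ (Tz 1)^[k] n ≤ (Tz 1)^[k + j] n with hP
  set D : ℕ → ℕ := fun i => if 11 * h ≤ 20 * ∑ u ∈ range h, X n (i + u) then 1 else 0 with hD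
  have hris := rising D W 10 P (by
    rintro k ⟨j, hj1, hj2, hj3⟩ _
    refine ⟨j, by omega, hj2, ?_⟩
    apply block (X n) (X_le n) h hh1 k j (by omega)
    rw [← od_Ico]
    apply rise_odd (by omega)
    · intro i hi
      rw [← Function.iterate_add_apply, add_comm i k]
      exact hbig10 _ (by omega)
    · rw [← Function.iterate_add_apply, add_comm j k]
      exact hj3) W 0 rfl (Nat.zero_le _)
  have hDsum : ((∑ i ∈ Ico 0 W, D i : ℕ) : ℝ) = ∑ k ∈ range W, Bw h ((Tz 1)^[k] n) := by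
    rw [Nat.Ico_zero_eq_range, Nat.cast_sum]
    apply sum_congr rfl
    intro i _
    rw [hD]
    unfold Bw
    rw [od_range]
    dsimp only
    split_ifs <;> simp
  have hDle : ((∑ i ∈ Ico 0 W, D i : ℕ) : ℝ) ≤ ε / 40 * ℓ := by
    rw [hDsum]
    have e1 := n2 W hWle
    simp only [one_mul] at e1
    rw [sum_sub_distrib, sum_const, card_range, nsmul_eq_mul, abs_le] at e1
    have e2 : (W : ℝ) * mn (Bw h) (2 ^ h) ≤ 8 * ℓ * (ε / 640) := by
      apply mul_le_mul hW8 hh.le _ (by positivity)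
      unfold mn
      apply div_nonneg _ (by positivity)
      apply sum_nonneg
      intro i _
      unfold Bw; split_ifs <;> norm_num
    linarith [e1.2]
  have hPcard : (((range W).filter P).card : ℝ) ≤ ε / 4 * ℓ := by
    rw [← Nat.Ico_zero_eq_range]
    calc (((Ico 0 W).filter P).card : ℝ) ≤ ((10 * ∑ i ∈ Ico 0 W, D i : ℕ) : ℝ) := by exact_mod_cast hris
      _ = 10 * ((∑ i ∈ Ico 0 W, D i : ℕ) : ℝ) := by push_cast; ring
      _ ≤ 10 * (ε / 40 * ℓ) := by linarith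
      _ = _ := by ring
  -- pointwise comparison
  have hpt : ∀ k ∈ range t, |(if Ris lam (κ * ℓ) n k then (1 : ℝ) else 0) - Fs lam J ((Tz 1)^[k] n)|
      ≤ (if W < k + J then 1 else 0) + (if P k then 1 else 0) := by
    intro k hk
    rw [mem_range] at hk
    have hkW : k < W := by omega
    have hx0 : (0 : ℤ) ≤ (Tz 1)^[k] n := by linarith [hbig10 k hkW.le]
    by_cases hF : ∃ j, 1 ≤ j ∧ j ≤ J ∧ lam * 2 ^ j ≤ (3 : ℝ) ^ od 1 j ((Tz 1)^[k] n)
    · have e1 : Fs lam J ((Tz 1)^[k] n) = 1 := by unfold Fs; rw [if_pos hF]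
      rw [e1]
      by_cases hRis : Ris lam (κ * ℓ) n k
      · rw [if_pos hRis, sub_self, abs_zero]
        split_ifs <;> norm_num
      · have hlt : W < k + J := by
          by_contra hge
          push Not at hge
          apply hRis
          obtain ⟨j, hj1, hj2, hj3⟩ := hF
          refine ⟨k + j, by omega, (hle _).2 (by omega), ?_⟩
          have := slope_rise hlam hx0 hj1 hj3
          rwa [← Function.iterate_add_apply, add_comm j k] at this
        rw [if_neg hRis, if_pos hlt, zero_sub, abs_neg, abs_one]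
        split_ifs <;> norm_num
    · have e1 : Fs lam J ((Tz 1)^[k] n) = 0 := by unfold Fs; rw [if_neg hF]
      rw [e1, sub_zero]
      by_cases hRis : Ris lam (κ * ℓ) n k
      · have hPk : P k := by
          obtain ⟨m, hm1, hm2, hm3⟩ := hRis
          rw [hle] at hm2
          obtain ⟨j, rfl⟩ := Nat.exists_eq_add_of_lt hm1
          refine ⟨j + 1, ?_, by omega, ?_⟩
          · by_contra hjJ
            push Not at hjJ
            apply hF
            refine ⟨j + 1, by omega, hjJ, ?_⟩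
            apply rise_slope hg hx0 _ hjJ
            · rw [← Function.iterate_add_apply]
              have : j + 1 + k = k + j + 1 := by omega
              rw [this]; exact hm3.le
            · have e2 : (3 : ℝ) ^ J / g + 1 ≤ ((Tz 1)^[k] n : ℤ) := (le_max_right _ _).trans (hbig k hkW.le)
              have e3 : (3 : ℝ) ^ J / g < ((Tz 1)^[k] n : ℤ) := by linarith
              rw [div_lt_iff₀ hg0] at e3
              linarith
          · have e4 : (((Tz 1)^[k] n : ℤ) : ℝ) ≤ lam * ((Tz 1)^[k] n : ℤ) := by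
              have : (0 : ℝ) ≤ ((Tz 1)^[k] n : ℤ) := by exact_mod_cast hx0
              nlinarith
            exact_mod_cast e4.trans hm3.le
        rw [if_pos hRis, if_pos hPk, abs_one]
        split_ifs <;> norm_num
      · rw [if_neg hRis, abs_zero]
        split_ifs <;> norm_num
  have hcmp : ∑ k ∈ range t, |(if Ris lam (κ * ℓ) n k then (1 : ℝ) else 0) - Fs lam J ((Tz 1)^[k] n)|
      ≤ J + ε / 4 * ℓ := by
    refine (sum_le_sum hpt).trans ?_
    rw [sum_add_distrib]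
    apply add_le_add
    · calc ∑ k ∈ range t, (if W < k + J then (1 : ℝ) else 0)
          ≤ ∑ k ∈ range W, (if W < k + J then (1 : ℝ) else 0) := by
            apply sum_le_sum_of_subset_of_nonneg (range_subset_range.2 htW)
            intro i _ _
            split_ifs <;> norm_num
        _ = (((range W).filter (fun k => W < k + J)).card : ℝ) := by
            rw [sum_ite, sum_const_zero, add_zero, sum_const, nsmul_eq_mul, mul_one]
        _ ≤ ((Ico (W - J) W).card : ℝ) := by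
            exact_mod_cast card_le_card (fun k hk => by
              rw [mem_filter, mem_range] at hk
              rw [mem_Ico]; omega)
        _ ≤ J := by
            rw [Nat.card_Ico]
            exact_mod_cast (by omega : W - (W - J) ≤ J)
    · calc ∑ k ∈ range t, (if P k then (1 : ℝ) else 0)
          ≤ ∑ k ∈ range W, (if P k then (1 : ℝ) else 0) := by
            apply sum_le_sum_of_subset_of_nonneg (range_subset_range.2 htW)
            intro i _ _
            split_ifs <;> norm_num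
        _ = (((range W).filter P).card : ℝ) := by
            rw [sum_ite, sum_const_zero, add_zero, sum_const, nsmul_eq_mul, mul_one]
        _ ≤ _ := hPcard
  set m := mn (Fs lam J) (2 ^ J) with hm
  have hfin : |∑ k ∈ range t, w.1 k * ((if Ris lam (κ * ℓ) n k then 1 else 0) - p)|
      ≤ |∑ k ∈ range t, w.1 k * (Fs lam J ((Tz 1)^[k] n) - m)|
        + (∑ k ∈ range t, |(if Ris lam (κ * ℓ) n k then (1 : ℝ) else 0) - Fs lam J ((Tz 1)^[k] n)|
        + t * (ε / 64)) := by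
    have e1 : ∑ k ∈ range t, w.1 k * ((if Ris lam (κ * ℓ) n k then 1 else 0) - p)
        = ∑ k ∈ range t, w.1 k * (Fs lam J ((Tz 1)^[k] n) - m)
          + ∑ k ∈ range t, w.1 k * (((if Ris lam (κ * ℓ) n k then 1 else 0) - Fs lam J ((Tz 1)^[k] n)) + (m - p)) := by
      rw [← sum_add_distrib]
      apply sum_congr rfl
      intro k _
      ring
    rw [e1]
    refine (abs_add_le _ _).trans (add_le_add le_rfl ?_)
    refine (abs_sum_le_sum_abs _ _).trans ?_
    calc ∑ k ∈ range t, |w.1 k * (((if Ris lam (κ * ℓ) n k then 1 else 0) - Fs lam J ((Tz 1)^[k] n)) + (m - p))|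
        ≤ ∑ k ∈ range t, (|(if Ris lam (κ * ℓ) n k then (1 : ℝ) else 0) - Fs lam J ((Tz 1)^[k] n)| + ε / 64) := by
          apply sum_le_sum
          intro k _
          rw [abs_mul]
          calc |w.1 k| * |((if Ris lam (κ * ℓ) n k then (1 : ℝ) else 0) - Fs lam J ((Tz 1)^[k] n)) + (m - p)|
              ≤ 1 * (|(if Ris lam (κ * ℓ) n k then (1 : ℝ) else 0) - Fs lam J ((Tz 1)^[k] n)| + |m - p|) :=
                mul_le_mul (w.2 k) (abs_add_le _ _) (abs_nonneg _) zero_le_one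
            _ ≤ _ := by rw [one_mul]; linarith
      _ = _ := by rw [sum_add_distrib, sum_const, card_range, nsmul_eq_mul]
  have f1 := n1 t ht
  have f2 : (t : ℝ) * (ε / 64) ≤ 8 * ℓ * (ε / 64) := by
    apply mul_le_mul_of_nonneg_right _ (by positivity)
    have : (t : ℝ) ≤ W := by exact_mod_cast htW
    linarith
  have f3 : 0 < ε * ℓ := by positivity
  linarith

end Pool.Agent.R344.EX
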