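import Pool.Agent.R344.EX.B
import Pool.Agent.R344.RL.H

/-! Rises along trajectories, part C: residues and words. -/

set_option autoImplicit false

namespace Pool.Agent.R344.EX

open Finset Filter
open Pool.Agent.H499R2.CO (Tz)
open Pool.Agent.R344.SP

/-- words with slopes below `lam` -/
def sw (K : ℕ) (lam : ℝ) : Set (Fin K → Fin 2) :=
  {w | ∀ k, 1 ≤ k → k ≤ K →
    (3 : ℝ) ^ (∑ i ∈ Finset.univ.filter (fun i : Fin K => (i : ℕ) < k), (w i : ℕ)) < lam * 2 ^ k}

/-- the parity word of a residue -/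
def ph (K : ℕ) (r : Fin (2 ^ K)) (i : Fin K) : Fin 2 := ⟨X ((r : ℕ) : ℤ) i, by
  have := X_le ((r : ℕ) : ℤ) i; omega⟩

theorem ph_inj (K : ℕ) : Function.Injective (ph K) := by
  intro r s hrs
  have h1 : ∀ i < K, (Tz 1)^[i] ((r : ℕ) : ℤ) % 2 = (Tz 1)^[i] ((s : ℕ) : ℤ) % 2 := by
    intro i hi
    have h2 := congrFun hrs ⟨i, hi⟩
    unfold ph at h2
    rw [Fin.mk.injEq] at h2
    unfold X at h2
    dsimp only at h2
    omega
  have h3 := (Pool.Agent.R344.RL.par_iffZ (d := 1) (by decide) K ((r : ℕ) : ℤ) ((s : ℕ) : ℤ)).2 h1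
  have h4 : |((r : ℕ) : ℤ) - ((s : ℕ) : ℤ)| < 2 ^ K := by
    have := r.2; have := s.2
    have e : ((2 ^ K : ℕ) : ℤ) = 2 ^ K := by push_cast; rfl
    rw [← e, abs_lt]; constructor <;> omega
  have h5 := Int.eq_zero_of_abs_lt_dvd h3 h4
  apply Fin.ext
  omega

theorem ph_bij (K : ℕ) : Function.Bijective (ph K) := by
  rw [Fintype.bijective_iff_injective_and_card]
  exact ⟨ph_inj K, by simp⟩

theorem ph_sum (K : ℕ) (r : Fin (2 ^ K)) (k : ℕ) (hk : k ≤ K) :
    ∑ i ∈ Finset.univ.filter (fun i : Fin K => (i : ℕ) < k), (ph K r i : ℕ) = od 1 k ((r : ℕ) : ℤ) := by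
  have h1 : od 1 k ((r : ℕ) : ℤ) = ∑ i ∈ range k, X ((r : ℕ) : ℤ) i := rfl
  rw [h1, sum_filter]
  have h2 : ∑ i : Fin K, (if (i : ℕ) < k then (ph K r i : ℕ) else 0)
      = ∑ i ∈ range K, (if i < k then X ((r : ℕ) : ℤ) i else 0) :=
    Fin.sum_univ_eq_sum_range (fun i => if i < k then X ((r : ℕ) : ℤ) i else 0) K
  rw [h2, ← sum_filter]
  congr 1
  ext i
  rw [mem_filter, mem_range, mem_range]
  omega

theorem mean_words (K : ℕ) (lam : ℝ) :
    mn (Fs lam K) (2 ^ K) = 1 - ((sw K lam).ncard : ℝ) / 2 ^ K := by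
  classical
  set Q : ℕ → Prop := fun r => ∀ k, 1 ≤ k → k ≤ K → (3 : ℝ) ^ od 1 k (r : ℤ) < lam * 2 ^ k with hQ
  have h1 : ∀ r : Fin (2 ^ K), ph K r ∈ sw K lam ↔ Q r := by
    intro r
    unfold sw
    rw [Set.mem_setOf_eq]
    constructor
    · intro h k h1 h2; have := h k h1 h2; rwa [ph_sum K r k h2] at this
    · intro h k h1 h2; rw [ph_sum K r k h2]; exact h k h1 h2
  have h2 : (sw K lam).ncard = ((range (2 ^ K)).filter Q).card := by
    have e1 : sw K lam = ph K '' {r | Q r} := by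
      ext w
      constructor
      · intro hw
        obtain ⟨r, rfl⟩ := (ph_bij K).2 w
        exact ⟨r, (h1 r).1 hw, rfl⟩
      · rintro ⟨r, hr, rfl⟩
        exact (h1 r).2 hr
    rw [e1, Set.ncard_image_of_injective _ (ph_inj K)]
    rw [← Set.ncard_coe_finset]
    have e2 : (((range (2 ^ K)).filter Q : Finset ℕ) : Set ℕ) = Fin.val '' {r : Fin (2 ^ K) | Q r} := by
      ext x
      rw [mem_coe, mem_filter, mem_range]
      constructor
      · rintro ⟨a, b⟩; exact ⟨⟨x, a⟩, b, rfl⟩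
      · rintro ⟨r, hr, rfl⟩; exact ⟨r.2, hr⟩
    rw [e2, Set.ncard_image_of_injective _ Fin.val_injective]
  have h3 : ∀ r ∈ range (2 ^ K), Fs lam K (r : ℤ) = 1 - (if Q r then 1 else 0) := by
    intro r _
    unfold Fs
    by_cases hq : Q r
    · rw [if_pos hq, if_neg, sub_self]
      rintro ⟨j, j1, j2, j3⟩
      have := hq j j1 j2
      linarith
    · rw [if_neg hq, if_pos, sub_zero]
      rw [hQ] at hq
      push Not at hq
      exact hq
  unfold mn
  rw [sum_congr rfl h3, sum_sub_distrib, sum_const, card_range, nsmul_eq_mul, mul_one, sub_div,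
    sum_boole, h2]
  have h4 : ((2 ^ K : ℕ) : ℝ) ≠ 0 := by positivity
  rw [div_self h4]
  push_cast
  rfl

end Pool.Agent.R344.EX
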