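import Pool.Agent.R344.EX.B

/-! Rises along trajectories, part D: late rises of bounded trajectories. -/

set_option autoImplicit false

namespace Pool.Agent.R344.EX

open Finset Filter
open Pool.Agent.H499R2.CO (Tz)
open Pool.Agent.R344.SP

/-- bounded trajectories -/
def Bd (z : ℤ) : Prop := ∃ M : ℝ, ∀ i : ℕ, ((Tz 1)^[i] z : ℤ) ≤ M

/-- positive integers with a bounded trajectory which rises by more than the factor `Λ` -/
def Hi (Λ : ℝ) : Set ℤ := {z | 0 < z ∧ Bd z ∧ ∃ i : ℕ, Λ * z < ((Tz 1)^[i] z : ℤ)}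

theorem Bd.iter {z : ℤ} (h : Bd z) (k : ℕ) : Bd ((Tz 1)^[k] z) := by
  obtain ⟨M, hM⟩ := h
  refine ⟨M, fun i => ?_⟩
  rw [← Function.iterate_add_apply]
  exact hM _

theorem iter_pos {z : ℤ} (h : 0 < z) : ∀ k : ℕ, 0 < (Tz 1)^[k] z
  | 0 => h
  | k + 1 => by
    have ih := iter_pos h k
    rw [Function.iterate_succ_apply']
    set y := (Tz 1)^[k] z
    rcases Int.emod_two_eq_zero_or_one y with h | h
    · have := Tz_even h; omega
    · have := Tz_odd h; omega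

/-- windows with few odd terms contract -/
theorem contract {Λ : ℝ} (hΛ : 0 < Λ) {h : ℕ} (hh : 1 ≤ h) (hΛh : Λ ^ 20 < 4 ^ h) {y : ℤ} (hy : 0 < y)
    (h10 : ∀ i < h, 10 ≤ (Tz 1)^[i] y) (hod : 20 * od 1 h y < 11 * h) :
    Λ * ((Tz 1)^[h] y : ℤ) < y := by
  have h1 := growth y h h10
  have hy' : (0 : ℝ) < y := by exact_mod_cast hy
  have h2 : Λ * (31 / 10) ^ od 1 h y < 2 ^ h := by
    have h3 : (Λ * (31 / 10) ^ od 1 h y) ^ 20 < ((2 : ℝ) ^ h) ^ 20 := by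
      rw [mul_pow, ← pow_mul]
      have h4 : ((31 : ℝ) / 10) ^ (od 1 h y * 20) ≤ ((31 / 10) ^ 11) ^ h := by
        rw [← pow_mul]
        exact pow_le_pow_right₀ (by norm_num) (by omega)
      calc Λ ^ 20 * (31 / 10) ^ (od 1 h y * 20) ≤ Λ ^ 20 * ((31 / 10) ^ 11) ^ h :=
            mul_le_mul_of_nonneg_left h4 (by positivity)
        _ < 4 ^ h * ((31 / 10) ^ 11) ^ h := mul_lt_mul_of_pos_right hΛh (by positivity)
        _ = (4 * (31 / 10) ^ 11) ^ h := by rw [mul_pow]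
        _ ≤ (2 ^ 20) ^ h := pow_le_pow_left₀ (by positivity) (by norm_num) h
        _ = (2 ^ h) ^ 20 := by rw [← pow_mul, ← pow_mul, mul_comm]
    exact lt_of_pow_lt_pow_left₀ 20 (by positivity) h3
  have h5 : 2 ^ h * (Λ * ((Tz 1)^[h] y : ℤ)) < 2 ^ h * (y : ℝ) := by
    calc 2 ^ h * (Λ * ((Tz 1)^[h] y : ℤ)) = Λ * (2 ^ h * ((Tz 1)^[h] y : ℤ)) := by ring
      _ ≤ Λ * ((31 / 10) ^ od 1 h y * y) := mul_le_mul_of_nonneg_left h1 hΛ.le
      _ = (Λ * (31 / 10) ^ od 1 h y) * y := by ring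
      _ < 2 ^ h * y := mul_lt_mul_of_pos_right h2 hy'
  exact lt_of_mul_lt_mul_left h5 (by positivity)

theorem late {κ : ℝ} (hκ : κ < 2 / Real.log (4 / 3))
    (hden : ∀ ε₁ : ℝ, 0 < ε₁ → ∃ Λ : ℝ, 1 ≤ Λ ∧ ∃ X₀ : ℝ, ∀ X : ℕ, X₀ ≤ X →
      (Set.ncard {x : ℤ | |x| ≤ X ∧ x ∈ Hi Λ} : ℝ) ≤ ε₁ * X) {ε : ℝ} (hε : 0 < ε) :
    Few (α := Unit) ε (fun _ n => 0 < n ∧ Bd n ∧ 0 ≤ κ * Real.log |(n : ℝ)| ∧ ε * Real.log |(n : ℝ)| <
      (Set.ncard {k : ℕ | (k : ℝ) ≤ κ * Real.log |(n : ℝ)| ∧ ∃ m : ℕ, κ * Real.log |(n : ℝ)| < m ∧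
        (Tz 1)^[k] n ≤ (Tz 1)^[m] n} : ℝ)) := by
  classical
  have hcrit : 0 < 2 / Real.log (4 / 3) := div_pos two_pos log43
  set κ' : ℝ := (max κ 0 + 2 / Real.log (4 / 3)) / 2 with hκ'
  have hm : max κ 0 < 2 / Real.log (4 / 3) := max_lt hκ hcrit
  have hκ'1 : κ' < 2 / Real.log (4 / 3) := by rw [hκ']; linarith
  have hκκ' : κ < κ' := by
    have := le_max_left κ 0
    rw [hκ']; linarith
  obtain ⟨ε₁, hε₁, hsets⟩ := sets_both T1 hκ'1 (ε := ε / 8) (by positivity)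
  obtain ⟨Λ, hΛ1, X₀, hΛ⟩ := hden ε₁ hε₁
  have E5 := hsets (Hi Λ) X₀ hΛ
  obtain ⟨h₀, hh₀⟩ : ∃ h₀ : ℕ, Λ ^ 20 < 4 ^ h₀ := pow_unbounded_of_one_lt _ (by norm_num)
  obtain ⟨h, hh1, hhh, hh⟩ := Bw_mean (η := ε / 64) (by positivity) h₀
  have hΛh : Λ ^ 20 < 4 ^ h := hh₀.trans_le (pow_le_pow_right₀ (by norm_num) hhh)
  have cop : ∀ j : ℕ, Nat.Coprime 3 (2 ^ j) := fun j => Nat.Coprime.pow_right _ (by norm_num)
  have E3 := law_prime T1 hκ (Bw_abs h) (H := 2 ^ h) Nat.one_le_two_pow (cop h) (Bw_per h)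
    (c := ε / 8) (by positivity)
  have E1 := large_terms hκ 10 (c := ε / 8) (by positivity)
  have E4 := few_small (α := Unit) (8 * h / ε + 1 / (κ' - κ)) (c := ε / 8) (by positivity)
  set P1 : ℤ → Prop := fun n => ∃ t : ℕ, (t : ℝ) ≤ κ' * Real.log |(n : ℝ)| ∧
        ε / 8 * Real.log |(n : ℝ)| < (Set.ncard {k : ℕ | k < t ∧ (Tz 1)^[k] n ∈ Hi Λ} : ℝ) with hP1
  set P2 : ℤ → Prop := fun n => ∃ t : ℕ, (t : ℝ) ≤ κ * Real.log |(n : ℝ)| ∧
    ε / 8 * Real.log |(n : ℝ)| < |∑ k ∈ range t, 1 * (Bw h ((Tz 1)^[k] n) - mn (Bw h) (2 ^ h))| with hP2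
  set P3 : ℤ → Prop := fun n => 0 < n ∧ ∃ i : ℕ, (i : ℝ) ≤ κ * Real.log |(n : ℝ)| ∧
      ((Tz 1)^[i] n : ℤ) < (10 : ℝ) with hP3
  set P4 : ℤ → Prop := fun n => Real.log |(n : ℝ)| ≤ 8 * h / ε + 1 / (κ' - κ) with hP4
  have U1 := E5.union E3 (B'' := fun (_ : Unit) n => P1 n ∨ P2 n) id
    (fun _ => ⟨fun _ => 1, fun _ => by simp⟩) (fun w n _ hb => hb)
  have U2 := E1.union E4 (B'' := fun (_ : Unit) n => P3 n ∨ P4 n) id id (fun w n _ hb => hb)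
  have U3 := U1.union U2 (B'' := fun (_ : Unit) n => (P1 n ∨ P2 n) ∨ (P3 n ∨ P4 n)) id
    id (fun w n _ hb => hb)
  refine U3.mono (by linarith) id ?_
  rintro _ n _ ⟨hn, hBd, hκℓ, hb⟩
  by_contra hcon
  simp only [not_or] at hcon
  obtain ⟨⟨n1, n2⟩, n3, n4⟩ := hcon
  simp only [hP1, hP2, hP3, hP4] at n1 n2 n3 n4
  push Not at n1 n2 n3 n4
  set ℓ := Real.log |(n : ℝ)| with hℓ
  have hκκ0 : 0 < κ' - κ := by linarith
  have hq1 : 0 ≤ 8 * h / ε := by positivity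
  have hq2 : 0 ≤ 1 / (κ' - κ) := by positivity
  have hℓ0 : 0 < ℓ := by linarith
  have hhℓ : (h : ℝ) ≤ ε / 8 * ℓ := by
    have : 8 * h / ε < ℓ := by linarith
    rw [div_lt_iff₀ hε] at this; linarith
  have hℓ1 : 1 ≤ (κ' - κ) * ℓ := by
    have : 1 / (κ' - κ) < ℓ := by linarith
    rw [div_lt_iff₀ hκκ0] at this; linarith
  set W := ⌊κ * ℓ⌋₊ with hW
  have hWle : (W : ℝ) ≤ κ * ℓ := Nat.floor_le hκℓ
  have hle : ∀ m : ℕ, (m : ℝ) ≤ κ * ℓ ↔ m ≤ W := fun m => (Nat.le_floor_iff hκℓ).symm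
  have hW8 : (W : ℝ) ≤ 8 * ℓ := hWle.trans (mul_le_mul_of_nonneg_right (kappa8 hκ) hℓ0.le)
  have hbig10 : ∀ i ≤ W, 10 ≤ (Tz 1)^[i] n := by
    intro i hi
    have h1 : (10 : ℝ) ≤ ((Tz 1)^[i] n : ℤ) := n3 hn i ((hle i).2 hi)
    exact_mod_cast h1
  have hV := n1 (W + 1) (by push_cast; nlinarith)
  have hDle : ∑ k ∈ range W, Bw h ((Tz 1)^[k] n) ≤ ε / 4 * ℓ := by
    have e1 := n2 W hWle
    simp only [one_mul] at e1
    rw [sum_sub_distrib, sum_const, card_range, nsmul_eq_mul, abs_le] at e1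
    have e2 : (W : ℝ) * mn (Bw h) (2 ^ h) ≤ 8 * ℓ * (ε / 64) := by
      apply mul_le_mul hW8 hh.le _ (by positivity)
      unfold mn
      apply div_nonneg _ (by positivity)
      apply sum_nonneg
      intro i _
      unfold Bw; split_ifs <;> norm_num
    linarith [e1.2]
  set S1 : Finset ℕ := Ico (W + 1 - h) (W + 1) with hS1
  set S2 : Finset ℕ := (range W).filter (fun k => 11 * h ≤ 20 * od 1 h ((Tz 1)^[k] n)) with hS2
  set S3 : Set ℕ := {k : ℕ | k < W + 1 ∧ (Tz 1)^[k] n ∈ Hi Λ} with hS3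
  have hS3f : S3.Finite := (Set.finite_Iio (W + 1)).subset (fun k hk => hk.1)
  have hS2c : (S2.card : ℝ) = ∑ k ∈ range W, Bw h ((Tz 1)^[k] n) := by
    rw [hS2]
    unfold Bw
    rw [← sum_filter, sum_const, nsmul_eq_mul, mul_one]
  -- the covering
  have hcov : {k : ℕ | (k : ℝ) ≤ κ * ℓ ∧ ∃ m : ℕ, κ * ℓ < m ∧ (Tz 1)^[k] n ≤ (Tz 1)^[m] n}
      ⊆ ((S1 ∪ S2 : Finset ℕ) : Set ℕ) ∪ {k | k + h ∈ S3} := by
    rintro k ⟨hk, m, hm1, hm2⟩
    rw [hle] at hk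
    have hmW : W < m := by
      by_contra hc
      push Not at hc
      have := (hle m).2 hc
      linarith
    rw [Set.mem_union, mem_coe, mem_union]
    by_cases c1 : k ∈ S1
    · exact Or.inl (Or.inl c1)
    have hkh : k + h ≤ W := by
      rw [hS1, mem_Ico] at c1
      omega
    by_cases c2 : k ∈ S2
    · exact Or.inl (Or.inr c2)
    rw [hS2, mem_filter, mem_range] at c2
    have hod : 20 * od 1 h ((Tz 1)^[k] n) < 11 * h := by
      by_contra hc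
      exact c2 ⟨by omega, by omega⟩
    refine Or.inr ⟨by omega, iter_pos hn _, hBd.iter _, m - (k + h), ?_⟩
    have h1 := contract (by linarith) hh1 hΛh (iter_pos hn k) (fun i hi => by
      rw [← Function.iterate_add_apply, add_comm i k]; exact hbig10 _ (by omega)) hod
    rw [← Function.iterate_add_apply] at h1
    rw [← Function.iterate_add_apply]
    have e1 : m - (k + h) + (k + h) = m := by omega
    rw [e1, add_comm k h]
    refine h1.trans_le ?_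
    exact_mod_cast hm2
  have hfin : (((S1 ∪ S2 : Finset ℕ) : Set ℕ) ∪ {k | k + h ∈ S3}).Finite := by
    apply (Finset.finite_toSet _).union
    exact Set.Finite.preimage (f := fun k => k + h) (fun a _ b _ hab => Nat.add_right_cancel hab) hS3f
  have hcard : (Set.ncard {k : ℕ | (k : ℝ) ≤ κ * ℓ ∧ ∃ m : ℕ, κ * ℓ < m ∧ (Tz 1)^[k] n ≤ (Tz 1)^[m] n} : ℝ)
      ≤ h + ε / 4 * ℓ + ε / 8 * ℓ := by
    have c1 := Set.ncard_le_ncard hcov hfin
    have c2 := Set.ncard_union_le (((S1 ∪ S2 : Finset ℕ) : Set ℕ)) {k | k + h ∈ S3}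
    have c3 : (((S1 ∪ S2 : Finset ℕ) : Set ℕ)).ncard ≤ h + S2.card := by
      rw [Set.ncard_coe_finset]
      refine (card_union_le _ _).trans (add_le_add ?_ le_rfl)
      rw [hS1, Nat.card_Ico]; omega
    have c4 : {k | k + h ∈ S3}.ncard ≤ S3.ncard :=
      Set.ncard_le_ncard_of_injOn (fun k => k + h) (fun k hk => hk)
        (fun a _ b _ hab => Nat.add_right_cancel hab) hS3f
    have c5 : (Set.ncard {k : ℕ | (k : ℝ) ≤ κ * ℓ ∧ ∃ m : ℕ, κ * ℓ < m ∧ (Tz 1)^[k] n ≤ (Tz 1)^[m] n} : ℝ)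
      ≤ h + S2.card + S3.ncard := by
      exact_mod_cast (c1.trans c2).trans (add_le_add c3 c4)
    rw [hS2c] at c5
    linarith
  have f3 : 0 < ε * ℓ := by positivity
  linarith

/-- a rise by more than the factor `lam` after time `k` -/
def RisF (lam : ℝ) (n : ℤ) (k : ℕ) : Prop := ∃ m : ℕ, k < m ∧ lam * ((Tz 1)^[k] n : ℤ) < ((Tz 1)^[m] n : ℤ)

open Classical in
theorem full_law {κ : ℝ} (hκ : κ < 2 / Real.log (4 / 3)) {lam : ℝ} (hlam : 1 ≤ lam) {p : ℝ}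
    (hp : Tendsto (fun J : ℕ => mn (Fs lam J) (2 ^ J)) atTop (nhds p))
    (hden : ∀ ε₁ : ℝ, 0 < ε₁ → ∃ Λ : ℝ, 1 ≤ Λ ∧ ∃ X₀ : ℝ, ∀ X : ℕ, X₀ ≤ X →
      (Set.ncard {x : ℤ | |x| ≤ X ∧ x ∈ Hi Λ} : ℝ) ≤ ε₁ * X) {ε : ℝ} (hε : 0 < ε) :
    Few ε (fun (w : Wt) n => 0 < n ∧ Bd n ∧ ∃ t : ℕ, (t : ℝ) ≤ κ * Real.log |(n : ℝ)| ∧
      ε * Real.log |(n : ℝ)| < |∑ k ∈ range t, w.1 k * ((if RisF lam n k then 1 else 0) - p)|) := by
  have hA := main_law hκ hlam hp (ε := ε / 2) (by positivity)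
  have hB := late hκ hden (ε := ε / 2) (by positivity)
  refine (hA.union hB (B'' := fun (w : Wt) n => 0 < n ∧ Bd n ∧ ∃ t : ℕ, (t : ℝ) ≤ κ * Real.log |(n : ℝ)| ∧
      ε * Real.log |(n : ℝ)| < |∑ k ∈ range t, w.1 k * ((if RisF lam n k then 1 else 0) - p)|)
      id (fun _ => ()) ?_).mono (by linarith) id (fun _ _ _ hb => hb)
  rintro w n _ ⟨hn, hBd, t, ht, hb⟩
  by_contra hcon
  simp only [id, not_or] at hcon
  obtain ⟨n1, n2⟩ := hcon
  push Not at n1 n2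
  have hκℓ : 0 ≤ κ * Real.log |(n : ℝ)| := le_trans (by positivity) ht
  have f1 := n1 hn t ht
  have f2 := n2 hn hBd hκℓ
  set ℓ := Real.log |(n : ℝ)| with hℓ
  set L : Set ℕ := {k : ℕ | (k : ℝ) ≤ κ * ℓ ∧ ∃ m : ℕ, κ * ℓ < m ∧ (Tz 1)^[k] n ≤ (Tz 1)^[m] n} with hL
  have hLf : L.Finite := by
    apply (Set.finite_Iic ⌊κ * ℓ⌋₊).subset
    rintro k ⟨hk, _⟩
    exact (Nat.le_floor_iff hκℓ).2 hk
  have hpt : ∀ k ∈ range t, |(if RisF lam n k then (1 : ℝ) else 0) - (if Ris lam (κ * ℓ) n k then 1 else 0)|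
      ≤ if k ∈ L then 1 else 0 := by
    intro k hk
    rw [mem_range] at hk
    by_cases c1 : Ris lam (κ * ℓ) n k
    · have c2 : RisF lam n k := by
        obtain ⟨m, m1, _, m3⟩ := c1
        exact ⟨m, m1, m3⟩
      rw [if_pos c1, if_pos c2, sub_self, abs_zero]
      split_ifs <;> norm_num
    · by_cases c2 : RisF lam n k
      · have c3 : k ∈ L := by
          obtain ⟨m, m1, m3⟩ := c2
          have hkt : (k : ℝ) ≤ κ * ℓ := by
            have : (k : ℝ) ≤ t := by exact_mod_cast hk.le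
            linarith
          refine ⟨hkt, m, ?_, ?_⟩
          · by_contra hc
            push Not at hc
            exact c1 ⟨m, m1, hc, m3⟩
          · have e1 : (0 : ℝ) < ((Tz 1)^[k] n : ℤ) := by exact_mod_cast iter_pos hn k
            have e2 : (((Tz 1)^[k] n : ℤ) : ℝ) ≤ ((Tz 1)^[m] n : ℤ) := by nlinarith
            exact_mod_cast e2
        rw [if_neg c1, if_pos c2, if_pos c3]; norm_num
      · rw [if_neg c1, if_neg c2, sub_self, abs_zero]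
        split_ifs <;> norm_num
  have hcmp : ∑ k ∈ range t, (if k ∈ L then (1 : ℝ) else 0) ≤ L.ncard := by
    rw [← sum_filter, sum_const, nsmul_eq_mul, mul_one, ← Set.ncard_coe_finset]
    have : (((range t).filter (fun k => k ∈ L) : Finset ℕ) : Set ℕ) ⊆ L := by
      intro k hk
      rw [mem_coe, mem_filter] at hk
      exact hk.2
    exact_mod_cast Set.ncard_le_ncard this hLf
  have e1 : ∑ k ∈ range t, w.1 k * ((if RisF lam n k then 1 else 0) - p)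
      = ∑ k ∈ range t, w.1 k * ((if Ris lam (κ * ℓ) n k then 1 else 0) - p)
        + ∑ k ∈ range t, w.1 k * ((if RisF lam n k then (1 : ℝ) else 0) - (if Ris lam (κ * ℓ) n k then 1 else 0)) := by
    rw [← sum_add_distrib]
    apply sum_congr rfl
    intro k _
    ring
  have e2 : |∑ k ∈ range t, w.1 k * ((if RisF lam n k then 1 else 0) - p)|
      ≤ |∑ k ∈ range t, w.1 k * ((if Ris lam (κ * ℓ) n k then 1 else 0) - p)| + L.ncard := by
    rw [e1]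
    refine (abs_add_le _ _).trans (add_le_add le_rfl ?_)
    refine (abs_sum_le_sum_abs _ _).trans (le_trans (sum_le_sum fun k hk => ?_) hcmp)
    rw [abs_mul]
    calc |w.1 k| * |(if RisF lam n k then (1 : ℝ) else 0) - (if Ris lam (κ * ℓ) n k then 1 else 0)|
        ≤ 1 * (if k ∈ L then 1 else 0) := mul_le_mul (w.2 k) (hpt k hk) (abs_nonneg _) zero_le_one
      _ = _ := one_mul _
  linarith

open Classical in
/-- the law up to the critical time -/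
theorem full_law_crit {lam : ℝ} (hlam : 1 ≤ lam) {p : ℝ} (hp0 : 0 ≤ p) (hp1 : p ≤ 1)
    (hp : Tendsto (fun J : ℕ => mn (Fs lam J) (2 ^ J)) atTop (nhds p))
    (hden : ∀ ε₁ : ℝ, 0 < ε₁ → ∃ Λ : ℝ, 1 ≤ Λ ∧ ∃ X₀ : ℝ, ∀ X : ℕ, X₀ ≤ X →
      (Set.ncard {x : ℤ | |x| ≤ X ∧ x ∈ Hi Λ} : ℝ) ≤ ε₁ * X) {ε : ℝ} (hε : 0 < ε) :
    Few ε (fun (w : Wt) n => 0 < n ∧ Bd n ∧ ∃ t : ℕ, (t : ℝ) ≤ 2 / Real.log (4 / 3) * Real.log |(n : ℝ)| ∧
      ε * Real.log |(n : ℝ)| < |∑ k ∈ range t, w.1 k * ((if RisF lam n k then 1 else 0) - p)|) := by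
  set κ : ℝ := 2 / Real.log (4 / 3) - ε / 4 with hκd
  have hA := full_law (κ := κ) (by rw [hκd]; linarith) hlam hp hden (ε := ε / 2) (by positivity)
  have hB := few_small (α := Unit) (4 / ε) (c := ε / 2) (by positivity)
  refine (hA.union hB (B'' := fun (w : Wt) n => 0 < n ∧ Bd n ∧
      ∃ t : ℕ, (t : ℝ) ≤ 2 / Real.log (4 / 3) * Real.log |(n : ℝ)| ∧
      ε * Real.log |(n : ℝ)| < |∑ k ∈ range t, w.1 k * ((if RisF lam n k then 1 else 0) - p)|)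
      id (fun _ => ()) ?_).mono (by linarith) id (fun _ _ _ hb => hb)
  rintro w n _ ⟨hn, hBd, t, ht, hb⟩
  by_contra hcon
  simp only [id, not_or] at hcon
  obtain ⟨n1, n2⟩ := hcon
  push Not at n1 n2
  set ℓ := Real.log |(n : ℝ)| with hℓ
  have hℓ0 : 0 < ℓ := lt_trans (by positivity) n2
  have h4 : 4 < ε * ℓ := by
    rw [div_lt_iff₀ hε] at n2; linarith
  have hterm : ∀ k : ℕ, |w.1 k * ((if RisF lam n k then (1 : ℝ) else 0) - p)| ≤ 1 := by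
    intro k
    rw [abs_mul]
    calc |w.1 k| * |(if RisF lam n k then (1 : ℝ) else 0) - p| ≤ 1 * 1 := by
          apply mul_le_mul (w.2 k) _ (abs_nonneg _) zero_le_one
          rw [abs_le]
          split_ifs <;> constructor <;> linarith
      _ = 1 := one_mul 1
  have htail : ∀ s : ℕ, s ≤ t → |∑ k ∈ range t, w.1 k * ((if RisF lam n k then (1 : ℝ) else 0) - p)|
      ≤ |∑ k ∈ range s, w.1 k * ((if RisF lam n k then (1 : ℝ) else 0) - p)| + (t - s) := by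
    intro s hs
    obtain ⟨u, rfl⟩ := Nat.exists_eq_add_of_le hs
    rw [sum_range_add]
    refine (abs_add_le _ _).trans (add_le_add le_rfl ?_)
    refine (abs_sum_le_sum_abs _ _).trans ?_
    calc ∑ x ∈ range u, |w.1 (s + x) * ((if RisF lam n (s + x) then (1 : ℝ) else 0) - p)|
        ≤ ∑ _x ∈ range u, (1 : ℝ) := sum_le_sum fun x _ => hterm _
      _ = ((s + u : ℕ) : ℝ) - s := by simp
  have e0 : 2 / Real.log (4 / 3) * ℓ = κ * ℓ + ε / 4 * ℓ := by rw [hκd]; ring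
  rw [e0] at ht
  rcases le_or_gt (κ * ℓ) 0 with hneg | hpos
  · have h1 := htail 0 (Nat.zero_le _)
    simp only [range_zero, sum_empty, abs_zero, Nat.cast_zero, sub_zero, zero_add] at h1
    nlinarith
  · rcases Nat.lt_or_ge t (⌊κ * ℓ⌋₊ + 1) with h | h
    · have h2 : (t : ℝ) ≤ κ * ℓ := by
        have h3 : (t : ℝ) ≤ ⌊κ * ℓ⌋₊ := by exact_mod_cast (by omega : t ≤ ⌊κ * ℓ⌋₊)
        exact h3.trans (Nat.floor_le hpos.le)
      have h3 := n1 hn hBd t h2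
      nlinarith
    · have h1 := htail ⌊κ * ℓ⌋₊ (by omega)
      have h2 := n1 hn hBd ⌊κ * ℓ⌋₊ (Nat.floor_le hpos.le)
      have h3 := Nat.lt_floor_add_one (κ * ℓ)
      nlinarith

end Pool.Agent.R344.EX
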